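import Pool.Agent.H467Z.Orb.Main

set_option autoImplicit false

namespace Pool.Agent.Results.MP_ce7934_gt.AllManifolds

open Pool.Agent.H467Z.Orb
open scoped Manifold ContDiff

universe u

/-- Every closed connected smooth 4-manifold is a resolution of a closed Einstein orbifold with
isolated singular points. -/
theorem result (M : Type u) [TopologicalSpace M] [T2Space M] [CompactSpace M] [ConnectedSpace M]
    [ChartedSpace E4 M] [IsManifold (𝓡 4) ∞ M] :
    ∃ (V : Type) (_ : TopologicalSpace V) (A : EinsteinOrbifold V) (π : M → V),
      IsResolution A π :=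
  let ⟨π, h⟩ := exists_resolution M
  ⟨VV, inferInstance, orb, π, h⟩

end Pool.Agent.Results.MP_ce7934_gt.AllManifolds
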